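import Pool.Graph.R_seed8.Results.MP_b9cab9_al.NoMStructure

/-!
# Representations of the cyclic bipartite quiver of dimension `m` at every vertex

Vertices `V_i`, `W_i` (`i` in `Fin (k + 1)`), arrows `x_i : V_i → W_i` and `y_i : V_i → W_{i+1}`.
For `m ≥ 2` every representation with `dim V_i = dim W_i = m` has a nonzero endomorphism of
trace zero (the sum of all the traces). If all maps are invertible, an endomorphism is given by
a matrix commuting with the monodromy; the general case follows by perturbation, because the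
injectivity of a linear map is an open condition.
-/

set_option autoImplicit false

open Matrix Topology Filter

namespace Pool.Agent.KS6_95.MS

attribute [local instance] Matrix.normedAddCommGroup Matrix.normedSpace

variable {k m : ℕ}

/-- `m × m` matrices -/
abbrev Mat (m : ℕ) : Type := Matrix (Fin m) (Fin m) ℂ

/-- a nonzero endomorphism of trace zero -/
def HasEndo (x y : Fin (k + 1) → Mat m) : Prop :=
  ∃ a b : Fin (k + 1) → Mat m, (∀ i, b i * x i = x i * a i) ∧
    (∀ i, b (i + 1) * y i = y i * a i) ∧ ∑ i, (a i).trace + ∑ i, (b i).trace = 0 ∧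
    ¬ (a = 0 ∧ b = 0)

theorem exists_commute (hm : 2 ≤ m) (T : Mat m) :
    ∃ N : Mat m, N ≠ 0 ∧ N.trace = 0 ∧ T * N = N * T := by
  have hm0 : (m : ℂ) ≠ 0 := by
    have : m ≠ 0 := by omega
    exact_mod_cast this
  by_cases h : T - (T.trace / m) • (1 : Mat m) = 0
  · have hT : T = (T.trace / m) • (1 : Mat m) := sub_eq_zero.1 h
    refine ⟨Matrix.single ⟨0, by omega⟩ ⟨1, by omega⟩ 1, ?_, ?_, ?_⟩
    · intro h0
      have := congrFun (congrFun h0 ⟨0, by omega⟩) ⟨1, by omega⟩
      simp at this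
    · rw [Matrix.trace_single_eq_of_ne]
      simp
    · rw [hT]; simp
  · refine ⟨_, h, ?_, ?_⟩
    · rw [Matrix.trace_sub, Matrix.trace_smul, Matrix.trace_one, Fintype.card_fin, smul_eq_mul]
      field_simp
      ring
    · rw [mul_sub, sub_mul]; simp

/-- transport along the cycle -/
def tr (X Y : Fin (k + 1) → (Mat m)ˣ) : ℕ → (Mat m)ˣ
  | 0 => 1
  | j + 1 => (X (Fin.ofNat (k + 1) (j + 1)))⁻¹ * Y (Fin.ofNat (k + 1) j) * tr X Y j

theorem hasEndo_of_units (hm : 2 ≤ m) (X Y : Fin (k + 1) → (Mat m)ˣ) :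
    HasEndo (fun i => (X i : Mat m)) (fun i => (Y i : Mat m)) := by
  obtain ⟨N, hN0, hNt, hN⟩ := exists_commute hm ((tr X Y (k + 1) : (Mat m)ˣ) : Mat m)
  set P := tr X Y with hP
  have hP0 : P 0 = 1 := rfl
  let A : ℕ → Mat m := fun j => (P j : Mat m) * N * ((P j)⁻¹ : (Mat m)ˣ)
  have hA0 : A 0 = N := by simp [A, hP0]
  have hAk : A (k + 1) = N := by
    show (P (k + 1) : Mat m) * N * ((P (k + 1))⁻¹ : (Mat m)ˣ) = N
    rw [hN, mul_assoc, Units.mul_inv, mul_one]
  refine ⟨fun i => A i.val, fun i => (X i : Mat m) * A i.val * ((X i)⁻¹ : (Mat m)ˣ), ?_, ?_, ?_, ?_⟩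
  · intro i
    simp only
    rw [mul_assoc, Units.inv_mul, mul_one]
  · intro i
    simp only
    have h1 : i + 1 = Fin.ofNat (k + 1) (i.val + 1) := by
      apply Fin.ext
      simp [Fin.ofNat, Fin.val_add]
    have h2 : (Fin.ofNat (k + 1) i.val) = i := by
      apply Fin.ext
      exact Nat.mod_eq_of_lt i.2
    have h3 : A (i + 1).val = A (i.val + 1) := by
      rw [h1]
      by_cases h : i.val + 1 < k + 1
      · congr 1
        simp only [Fin.ofNat]
        exact Nat.mod_eq_of_lt h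
      · have h4 : i.val + 1 = k + 1 := by have := i.2; omega
        rw [h4, hAk]
        simp only [Fin.ofNat, Nat.mod_self]
        exact hA0
    have h5 : X (i + 1) * P (i.val + 1) = Y i * P i.val := by
      have : P (i.val + 1) = (X (Fin.ofNat (k + 1) (i.val + 1)))⁻¹ *
          Y (Fin.ofNat (k + 1) i.val) * P i.val := rfl
      rw [this, ← h1, h2]
      group
    have h6 : (X (i + 1) : Mat m) * (P (i.val + 1) : Mat m) = (Y i : Mat m) * (P i.val : Mat m) := by
      rw [← Units.val_mul, h5, Units.val_mul]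
    have h7 : ((P (i.val + 1))⁻¹ : (Mat m)ˣ) * ((X (i + 1))⁻¹ : (Mat m)ˣ) =
        ((P i.val)⁻¹ : (Mat m)ˣ) * ((Y i)⁻¹ : (Mat m)ˣ) := by
      rw [← _root_.mul_inv_rev, ← _root_.mul_inv_rev, h5]
    have h8 : (((P (i.val + 1))⁻¹ : (Mat m)ˣ) : Mat m) * (((X (i + 1))⁻¹ : (Mat m)ˣ) : Mat m) =
        (((P i.val)⁻¹ : (Mat m)ˣ) : Mat m) * (((Y i)⁻¹ : (Mat m)ˣ) : Mat m) := by
      rw [← Units.val_mul, h7, Units.val_mul]
    rw [h3]
    show (X (i + 1) : Mat m) * ((P (i.val + 1) : Mat m) * N * ((P (i.val + 1))⁻¹ : (Mat m)ˣ)) *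
      ((X (i + 1))⁻¹ : (Mat m)ˣ) * (Y i : Mat m) =
      (Y i : Mat m) * ((P i.val : Mat m) * N * ((P i.val)⁻¹ : (Mat m)ˣ))
    calc (X (i + 1) : Mat m) * ((P (i.val + 1) : Mat m) * N * ((P (i.val + 1))⁻¹ : (Mat m)ˣ)) *
          ((X (i + 1))⁻¹ : (Mat m)ˣ) * (Y i : Mat m)
        = ((X (i + 1) : Mat m) * (P (i.val + 1) : Mat m)) * N *
            ((((P (i.val + 1))⁻¹ : (Mat m)ˣ) : Mat m) * (((X (i + 1))⁻¹ : (Mat m)ˣ) : Mat m)) *
            (Y i : Mat m) := by simp only [mul_assoc]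
      _ = ((Y i : Mat m) * (P i.val : Mat m)) * N *
            ((((P i.val)⁻¹ : (Mat m)ˣ) : Mat m) * (((Y i)⁻¹ : (Mat m)ˣ) : Mat m)) *
            (Y i : Mat m) := by rw [h6, h8]
      _ = (Y i : Mat m) * ((P i.val : Mat m) * N * ((P i.val)⁻¹ : (Mat m)ˣ)) := by
          simp only [mul_assoc, Units.inv_mul, mul_one]
  · have e1 : ∀ j, (A j).trace = 0 := by
      intro j
      show ((P j : Mat m) * N * ((P j)⁻¹ : (Mat m)ˣ)).trace = 0
      rw [Matrix.trace_units_conj, hNt]
    simp only [Matrix.trace_units_conj, e1]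
    simp
  · rintro ⟨h, -⟩
    apply hN0
    have := congrFun h 0
    simpa [hA0] using this

/-- the linear map whose kernel consists of the endomorphisms of trace zero -/
def F (x y : Fin (k + 1) → Mat m) : ((Fin (k + 1) → Mat m) × (Fin (k + 1) → Mat m)) →ₗ[ℂ]
    ((Fin (k + 1) → Mat m) × (Fin (k + 1) → Mat m)) × ℂ where
  toFun p := ((fun i => p.2 i * x i - x i * p.1 i, fun i => p.2 (i + 1) * y i - y i * p.1 i),
    ∑ i, (p.1 i).trace + ∑ i, (p.2 i).trace)
  map_add' p q := by
    refine Prod.ext (Prod.ext ?_ ?_) ?_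
    · funext i
      simp only [Prod.fst_add, Prod.snd_add, Pi.add_apply, mul_add, add_mul]
      abel
    · funext i
      simp only [Prod.fst_add, Prod.snd_add, Pi.add_apply, mul_add, add_mul]
      abel
    · simp only [Prod.fst_add, Prod.snd_add, Pi.add_apply, Matrix.trace_add,
        Finset.sum_add_distrib]
      ring
  map_smul' c p := by
    refine Prod.ext (Prod.ext ?_ ?_) ?_
    · funext i
      simp [smul_sub]
    · funext i
      simp [smul_sub]
    · simp only [Prod.smul_fst, Prod.smul_snd, Pi.smul_apply, Matrix.trace_smul,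
        RingHom.id_apply, smul_eq_mul, mul_add, Finset.mul_sum]

theorem hasEndo_iff (x y : Fin (k + 1) → Mat m) :
    HasEndo x y ↔ ¬ Function.Injective (F x y) := by
  rw [injective_iff_map_eq_zero]
  push Not
  constructor
  · rintro ⟨a, b, h1, h2, h3, h4⟩
    refine ⟨(a, b), ?_, ?_⟩
    · refine Prod.ext (Prod.ext ?_ ?_) h3
      · funext i; exact sub_eq_zero.2 (h1 i)
      · funext i; exact sub_eq_zero.2 (h2 i)
    · intro h
      exact h4 ⟨congrArg Prod.fst h, congrArg Prod.snd h⟩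
  · rintro ⟨⟨a, b⟩, h, h0⟩
    refine ⟨a, b, fun i => ?_, fun i => ?_, congrArg Prod.snd h, ?_⟩
    · exact sub_eq_zero.1 (congrFun (congrArg (fun z => z.1.1) h) i)
    · exact sub_eq_zero.1 (congrFun (congrArg (fun z => z.1.2) h) i)
    · rintro ⟨rfl, rfl⟩
      exact h0 rfl

theorem eventually_det (x : Mat m) : ∀ᶠ t : ℂ in 𝓝[≠] 0, IsUnit (x + t • (1 : Mat m)) := by
  have hp : (-x).charpoly ≠ 0 := (Matrix.charpoly_monic (-x)).ne_zero
  have hfin : ({t : ℂ | (-x).charpoly.eval t = 0}).Finite := Polynomial.finite_setOfPred_isRoot hp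
  have h1 : ({t : ℂ | (-x).charpoly.eval t = 0} \ {0})ᶜ ∈ 𝓝 (0 : ℂ) :=
    (hfin.subset Set.sdiff_subset).isClosed.compl_mem_nhds (by simp)
  filter_upwards [nhdsWithin_le_nhds h1, self_mem_nhdsWithin] with t ht ht0
  have h2 : (-x).charpoly.eval t ≠ 0 := by
    intro h
    exact ht ⟨h, ht0⟩
  rw [Matrix.eval_charpoly] at h2
  rw [Matrix.isUnit_iff_isUnit_det, isUnit_iff_ne_zero]
  have h3 : x + t • (1 : Mat m) = Matrix.scalar (Fin m) t - -x := by
    rw [Matrix.scalar_apply, ← Matrix.smul_one_eq_diagonal]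
    abel
  rwa [h3]

theorem hasEndo (hm : 2 ≤ m) (x y : Fin (k + 1) → Mat m) : HasEndo x y := by
  by_contra hcon
  have hinj : Function.Injective (F x y) := by
    rw [hasEndo_iff, not_not] at hcon
    exact hcon
  let x' : ℂ → Fin (k + 1) → Mat m := fun t i => x i + t • (1 : Mat m)
  let y' : ℂ → Fin (k + 1) → Mat m := fun t i => y i + t • (1 : Mat m)
  let L : ℂ → ((Fin (k + 1) → Mat m) × (Fin (k + 1) → Mat m)) →L[ℂ]
      ((Fin (k + 1) → Mat m) × (Fin (k + 1) → Mat m)) × ℂ := fun t =>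
    (F x y).toContinuousLinearMap + t • ((F (x' 1) (y' 1)).toContinuousLinearMap -
      (F x y).toContinuousLinearMap)
  have hL : ∀ t, ∀ p, L t p = F (x' t) (y' t) p := by
    intro t p
    show F x y p + t • (F (x' 1) (y' 1) p - F x y p) = F (x' t) (y' t) p
    refine Prod.ext (Prod.ext ?_ ?_) ?_
    · funext i
      simp [F, x', mul_add, add_mul, smul_sub]
      abel
    · funext i
      simp [F, y', mul_add, add_mul, smul_sub]
      abel
    · simp [F]
  have hcont : Continuous L := by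
    show Continuous fun t : ℂ => (F x y).toContinuousLinearMap +
      t • ((F (x' 1) (y' 1)).toContinuousLinearMap - (F x y).toContinuousLinearMap)
    fun_prop
  have hopen : IsOpen {t : ℂ | Function.Injective (L t)} :=
    ContinuousLinearMap.isOpen_injective.preimage hcont
  have h0 : (0 : ℂ) ∈ {t : ℂ | Function.Injective (L t)} := by
    intro p q hpq
    rw [hL, hL] at hpq
    have : x' 0 = x := by funext i; simp [x']
    have h' : y' 0 = y := by funext i; simp [y']
    rw [this, h'] at hpq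
    exact hinj hpq
  have h1 : ∀ᶠ t : ℂ in 𝓝[≠] 0, Function.Injective (L t) :=
    nhdsWithin_le_nhds (hopen.mem_nhds h0)
  have h2 : ∀ᶠ t : ℂ in 𝓝[≠] 0, ∀ i, IsUnit (x' t i) :=
    Filter.eventually_all.2 fun i => eventually_det (x i)
  have h3 : ∀ᶠ t : ℂ in 𝓝[≠] 0, ∀ i, IsUnit (y' t i) :=
    Filter.eventually_all.2 fun i => eventually_det (y i)
  obtain ⟨t, ht1, ht2, ht3⟩ := (h1.and (h2.and h3)).exists
  choose X hX using ht2
  choose Y hY using ht3
  have h4 := hasEndo_of_units hm X Y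
  rw [hasEndo_iff] at h4
  apply h4
  intro p q hpq
  apply ht1
  rw [hL, hL]
  have e1 : (fun i => (X i : Mat m)) = x' t := funext hX
  have e2 : (fun i => (Y i : Mat m)) = y' t := funext hY
  rw [e1, e2] at hpq
  exact hpq

end Pool.Agent.KS6_95.MS
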