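import Pool.Agent.KS6_95.MS.Cyc

/-!
# The element `1` of a weak `ℳ`-structure is a representation without nonscalar endomorphisms
-/

set_option autoImplicit false

open Matrix

namespace Pool.Agent.KS6_95.MS

open Pool.Agent.Results.MP_b9cab9_al.NoMStructure

/-- The endomorphisms of the representation given by `1` are scalar. -/
theorem endo_scalar {r s : ℕ} {a : Fin r → Fin s → ℕ} {m : Fin r → ℕ} {n : Fin s → ℕ}
    {𝒜 ℬ L : Type} [Ring 𝒜] [Algebra ℂ 𝒜] [Ring ℬ] [Algebra ℂ ℬ] [AddCommGroup L] [Module ℂ L]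
    (S : WeakMStructure 𝒜 ℬ L) (M : Multiplicities a m n S.toActions)
    (u : EndAlg m) (w : EndAlg n)
    (h : ∀ i j e, w j * M.eL (S.iA 1) i j e = M.eL (S.iA 1) i j e * u i) :
    ∃ c : ℂ, (∀ i, u i = c • 1) ∧ ∀ j, w j = c • 1 := by
  set x : 𝒜 := M.eA.symm u with hx
  set y : ℬ := M.eB.symm w with hy
  have hxy : S.iB y = S.iA x := by
    apply M.eL.injective
    funext i j k
    have e1 : S.iB y = S.toActions.l y (S.iB 1) :=
      (congrArg S.iB (mul_one y)).symm.trans (S.restrict.left y 1).symm
    have e2 : S.iA x = S.toActions.r (S.iA 1) x :=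
      (congrArg S.iA (one_mul x)).symm.trans (S.restrict.right 1 x).symm
    have e3 : coordA M.eA x i = u i := by rw [coordA, hx, AlgEquiv.apply_symm_apply]
    have e4 : coordA M.eB y j = w j := by rw [coordA, hy, AlgEquiv.apply_symm_apply]
    have e5 := M.left y (S.iB 1) i j k
    have e6 := M.right x (S.iA 1) i j k
    rw [← e1, ← S.one_eq] at e5
    rw [← e2] at e6
    show coordL M.eL (S.iB y) i j k = coordL M.eL (S.iA x) i j k
    rw [e5, e6, e3, e4]
    exact h i j k
  obtain ⟨c, hc⟩ := S.inter x y hxy.symm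
  refine ⟨c, fun i => ?_, fun j => ?_⟩
  · have e1 : x = c • 1 := by
      apply S.iA_injective
      rw [hc, map_smul]
    have e2 : M.eA x i = u i := by rw [hx, AlgEquiv.apply_symm_apply]
    rw [← e2, e1, map_smul, map_one]
    rfl
  · have e1 : y = c • 1 := by
      apply S.iB_injective
      rw [hxy, hc, map_smul, S.one_eq]
    have e2 : M.eB y j = w j := by rw [hy, AlgEquiv.apply_symm_apply]
    rw [← e2, e1, map_smul, map_one]
    rfl

/-- The number of edges between `V_i` and `W_j` in the cycle `Ã_{2k+1}` with the `2 (k + 1)`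
vertices `V_0, W_0, …, V_k, W_k`: `V_i` is joined to `W_i` and to `W_{i+1}`. -/
def cycle (k : ℕ) (i j : Fin (k + 1)) : ℕ := (if j = i then 1 else 0) + (if j = i + 1 then 1 else 0)

theorem no_cycle (k m : ℕ) (hm : 2 ≤ m) (𝒜 ℬ L : Type) [Ring 𝒜] [Algebra ℂ 𝒜] [Ring ℬ]
    [Algebra ℂ ℬ] [AddCommGroup L] [Module ℂ L] (S : WeakMStructure 𝒜 ℬ L)
    (M : Multiplicities (cycle k) (fun _ => m) (fun _ => m) S.toActions) : False := by
  set φ := M.eL (S.iA 1) with hφ
  have hx : ∀ i, 0 < cycle k i i := fun i => by unfold cycle; simp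
  have hy : ∀ i, cycle k i (i + 1) - 1 < cycle k i (i + 1) := fun i => by
    have : 0 < cycle k i (i + 1) := by unfold cycle; simp
    omega
  obtain ⟨a, b, h1, h2, h3, h4⟩ := hasEndo hm (fun i => φ i i ⟨0, hx i⟩)
    (fun i => φ i (i + 1) ⟨_, hy i⟩)
  have key : ∀ i j e, b j * φ i j e = φ i j e * a i := by
    rintro i j ⟨e, he⟩
    by_cases hj : j = i + 1
    · subst hj
      by_cases he' : e = cycle k i (i + 1) - 1
      · subst he'
        exact h2 i
      · -- then the edge is double, and `i + 1 = i`
        have hc : cycle k i (i + 1) ≤ 2 := by unfold cycle; split_ifs <;> simp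
        have he0 : e = 0 := by omega
        have hi : i + 1 = i := by
          by_contra hne
          have : cycle k i (i + 1) = 1 := by unfold cycle; simp [hne]
          omega
        have := h1 i
        subst he0
        simp only at this
        have aux : ∀ (j : Fin (k + 1)) (hj : j = i) (he : 0 < cycle k i j),
            b j * φ i j ⟨0, he⟩ = φ i j ⟨0, he⟩ * a i := by
          rintro j rfl he
          exact this
        exact aux (i + 1) hi he
    · by_cases hi : j = i
      · subst hi
        have : cycle k j j = 1 := by unfold cycle; simp [hj]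
        have he0 : e = 0 := by omega
        subst he0
        exact h1 j
      · have : cycle k i j = 0 := by unfold cycle; simp [hi, hj]
        omega
  obtain ⟨c, hc1, hc2⟩ := endo_scalar S M a b key
  simp only [hc1, hc2, Matrix.trace_smul, Matrix.trace_one, Fintype.card_fin, Finset.sum_const,
    Finset.card_univ, smul_eq_mul, nsmul_eq_mul] at h3
  have hc : c = 0 := by
    have hne : (((k + 1 : ℕ) : ℂ) * (m : ℂ)) * 2 ≠ 0 := by
      have h5 : ((k + 1 : ℕ) : ℂ) ≠ 0 := by exact_mod_cast Nat.succ_ne_zero k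
      have h6 : (m : ℂ) ≠ 0 := by
        have : m ≠ 0 := by omega
        exact_mod_cast this
      exact mul_ne_zero (mul_ne_zero h5 h6) two_ne_zero
    have h7 : ((((k + 1 : ℕ) : ℂ) * (m : ℂ)) * 2) * c = 0 := by
      rw [← h3]; ring
    exact (mul_eq_zero.1 h7).resolve_left hne
  apply h4
  constructor
  · funext i; rw [hc1, hc, zero_smul]; rfl
  · funext i; rw [hc2, hc, zero_smul]; rfl

end Pool.Agent.KS6_95.MS
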